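import Pool.Agent.U15.DP.Units

set_option autoImplicit false

/-!
# The average over the units of `ZMod n`
-/

namespace Pool.Agent.U15.DP

open Finset

section

variable {n : ℕ} [NeZero n]

/-- the representative of `z / n` in `[0, 1)` -/
def fr (z : ZMod n) : ℚ := (z.val : ℚ) / n

theorem cast_pos' : (0 : ℚ) < n := Nat.cast_pos.mpr (Nat.pos_of_ne_zero (NeZero.ne n))

theorem fr_nonneg (z : ZMod n) : 0 ≤ fr z := by
  unfold fr
  have := cast_pos' (n := n)
  positivity

theorem fr_lt_one (z : ZMod n) : fr z < 1 := by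
  unfold fr
  rw [div_lt_one cast_pos']
  exact_mod_cast ZMod.val_lt z

omit [NeZero n] in
theorem fr_zero : fr (0 : ZMod n) = 0 := by simp [fr]

theorem fr_pos {z : ZMod n} (h : z ≠ 0) : 0 < fr z := by
  unfold fr
  have := cast_pos' (n := n)
  have h1 : 0 < z.val := Nat.pos_of_ne_zero (by rwa [Ne, ZMod.val_eq_zero])
  have h2 : (0 : ℚ) < z.val := by exact_mod_cast h1
  positivity

theorem fr_intCast (k : ℤ) : fr (k : ZMod n) = Int.fract ((k : ℚ) / n) := by
  have hn := cast_pos' (n := n)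
  symm
  rw [Int.fract_eq_iff]
  refine ⟨fr_nonneg _, fr_lt_one _, k / n, ?_⟩
  unfold fr
  have h1 : (((k : ZMod n).val : ℤ) : ℚ) = ((k % n : ℤ) : ℚ) := by rw [ZMod.val_intCast]
  rw [Int.cast_natCast] at h1
  rw [h1, ← sub_div, div_eq_iff hn.ne']
  have h2 := Int.mul_ediv_add_emod k n
  have h3 : (k : ℚ) = (n : ℚ) * ((k / n : ℤ) : ℚ) + ((k % n : ℤ) : ℚ) := by exact_mod_cast h2.symm
  linarith

theorem intCast_val (z : ZMod n) : ((z.val : ℤ) : ZMod n) = z := by
  rw [Int.cast_natCast, ZMod.natCast_zmod_val]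

theorem fr_add (x y : ZMod n) : fr (x + y) = Int.fract (fr x + fr y) := by
  conv_lhs => rw [← intCast_val x, ← intCast_val y, ← Int.cast_add, fr_intCast]
  unfold fr
  push_cast
  rw [add_div]

theorem fr_neg (x : ZMod n) : fr (-x) = Int.fract (-fr x) := by
  conv_lhs => rw [← intCast_val x, ← Int.cast_neg, fr_intCast]
  unfold fr
  push_cast
  rw [neg_div]

theorem fr_neg_of_ne {x : ZMod n} (h : x ≠ 0) : fr (-x) = 1 - fr x := by
  rw [fr_neg]
  have h1 := fr_pos h
  have h2 := fr_lt_one x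
  rw [Int.fract_eq_iff]
  exact ⟨by linarith, by linarith, -1, by push_cast; ring⟩

theorem fr_mul (x y : ZMod n) : fr (x * y) = Int.fract ((x.val : ℚ) * fr y) := by
  conv_lhs => rw [← intCast_val x, ← intCast_val y, ← Int.cast_mul, fr_intCast]
  unfold fr
  push_cast
  rw [mul_div_assoc]

theorem fr_natMul (m : ℕ) (y : ZMod n) : fr ((m : ZMod n) * y) = Int.fract ((m : ℚ) * fr y) := by
  have h1 : (m : ZMod n) * y = (((m : ℤ) * (y.val : ℤ) : ℤ) : ZMod n) := by
    rw [Int.cast_mul, intCast_val, Int.cast_natCast]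
  rw [h1, fr_intCast]
  unfold fr
  push_cast
  rw [mul_div_assoc]

/-- the sum of the distances over the units -/
def S (z : ZMod n) : ℚ := ∑ u : (ZMod n)ˣ, nd (fr ((u : ZMod n) * z))

theorem sum_units_eq (H : ℕ → ℚ) :
    ∑ v : (ZMod n)ˣ, H (v : ZMod n).val = ∑ k ∈ range n, if Nat.Coprime n k then H k else 0 := by
  rw [← Finset.sum_filter]
  refine Finset.sum_bij (fun v _ => (v : ZMod n).val) ?_ ?_ ?_ ?_
  · intro v _
    rw [mem_filter, mem_range]
    exact ⟨ZMod.val_lt _, (ZMod.val_coe_unit_coprime v).symm⟩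
  · intro v _ w _ h
    exact Units.ext (ZMod.val_injective n h)
  · intro k hk
    rw [mem_filter, mem_range] at hk
    refine ⟨ZMod.unitOfCoprime k hk.2.symm, mem_univ _, ?_⟩
    rw [ZMod.coe_unitOfCoprime, ZMod.val_natCast_of_lt hk.1]
  · intro v _
    rfl

theorem sum_nd_units : ∑ v : (ZMod n)ˣ, nd (fr (v : ZMod n)) = ∑ k ∈ range n, Fc n k :=
  sum_units_eq (fun k => nd ((k : ℚ) / n))

theorem card_units_eq : (Fintype.card (ZMod n)ˣ : ℚ) = ∑ k ∈ range n, Ic n k := by
  have h := sum_units_eq (n := n) (fun _ => 1)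
  rw [Finset.sum_const, Finset.card_univ, nsmul_eq_mul, mul_one] at h
  exact h

/-- push forward of the average along a surjective homomorphism -/
theorem avg_surj {A B : Type*} [Group A] [Fintype A] [Group B] [Fintype B] (π : A →* B)
    (hπ : Function.Surjective π) (G : B → ℚ) :
    (Fintype.card B : ℚ) * ∑ a, G (π a) = Fintype.card A * ∑ b, G b := by
  have h1 : ∀ b : B, ∑ a, G (π a * b) = ∑ a, G (π a) := by
    intro b
    obtain ⟨c, rfl⟩ := hπ b
    rw [← Equiv.sum_comp (Equiv.mulRight c) (fun a => G (π a))]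
    apply Finset.sum_congr rfl
    intro a _
    simp
  have h2 : ∑ b : B, ∑ a, G (π a * b) = Fintype.card B * ∑ a, G (π a) := by
    rw [Finset.sum_congr rfl (fun b _ => h1 b), Finset.sum_const, Finset.card_univ, nsmul_eq_mul]
  rw [← h2, Finset.sum_comm]
  have h3 : ∀ a : A, ∑ b, G (π a * b) = ∑ b, G b := by
    intro a
    exact Equiv.sum_comp (Equiv.mulLeft (π a)) G
  rw [Finset.sum_congr rfl (fun a _ => h3 a), Finset.sum_const, Finset.card_univ, nsmul_eq_mul]

theorem S_eq {z : ZMod n} {d e g : ℕ} (hg : 0 < g) (hn : n = g * d) (hz : z.val = g * e)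
    (hde : Nat.Coprime e d) [NeZero d] :
    (Fintype.card (ZMod d)ˣ : ℚ) * S z = Fintype.card (ZMod n)ˣ * ∑ k ∈ range d, Fc d k := by
  have hdn : d ∣ n := ⟨g, by rw [hn]; ring⟩
  have hd0 : (0 : ℚ) < d := cast_pos' (n := d)
  have hg0 : (0 : ℚ) < g := by exact_mod_cast hg
  have hnq : (n : ℚ) = g * d := by exact_mod_cast hn
  have key : ∀ u : (ZMod n)ˣ, nd (fr ((u : ZMod n) * z)) =
      nd ((((ZMod.unitsMap hdn u : (ZMod d)ˣ) : ZMod d).val : ℚ) * e / d) := by
    intro u
    rw [fr_mul, nd_fract]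
    have h1 : (((u : ZMod n).val : ℚ) * fr z) = ((u : ZMod n).val : ℚ) * e / d := by
      unfold fr
      rw [hz, hnq]
      push_cast
      field_simp
    rw [h1]
    have h2 : ((ZMod.unitsMap hdn u : (ZMod d)ˣ) : ZMod d).val = (u : ZMod n).val % d := by
      rw [ZMod.unitsMap_val, ZMod.cast_eq_val, ZMod.val_natCast]
    rw [h2]
    have h3 := Nat.div_add_mod (u : ZMod n).val d
    generalize (u : ZMod n).val / d = q at h3
    generalize (u : ZMod n).val % d = r at h3
    have h4 : (((u : ZMod n).val : ℕ) : ℚ) = (d : ℚ) * (q : ℚ) + (r : ℚ) := by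
      exact_mod_cast h3.symm
    have h5 : (((u : ZMod n).val : ℕ) : ℚ) * e / d = (r : ℚ) * e / d +
        (((q : ℤ) * (e : ℤ) : ℤ) : ℚ) := by
      rw [h4]
      push_cast
      field_simp
      ring
    rw [h5, nd_add_int]
  unfold S
  rw [Finset.sum_congr rfl (fun u _ => key u)]
  rw [avg_surj (ZMod.unitsMap hdn) (ZMod.unitsMap_surjective hdn)
    (fun v : (ZMod d)ˣ => nd (((v : ZMod d).val : ℚ) * e / d))]
  congr 1
  rw [← sum_nd_units]
  rw [← Equiv.sum_comp (Equiv.mulRight (ZMod.unitOfCoprime e hde)) (fun v : (ZMod d)ˣ => nd (fr (v : ZMod d)))]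
  apply Finset.sum_congr rfl
  intro v _
  rw [Equiv.coe_mulRight, Units.val_mul, ZMod.coe_unitOfCoprime]
  have h1 : ((v : ZMod d) * (e : ZMod d)) = (((((v : ZMod d).val : ℤ) * (e : ℤ) : ℤ)) : ZMod d) := by
    rw [Int.cast_mul, intCast_val, Int.cast_natCast]
  rw [h1, fr_intCast, nd_fract]
  push_cast
  rfl

theorem avg_main {z : ZMod n} (hz : z ≠ 0) :
    (Fintype.card (ZMod n)ˣ : ℚ) * (1 / 6) ≤ S z ∧
      (6 * z ≠ 0 → (Fintype.card (ZMod n)ˣ : ℚ) * (1 / 6) < S z) := by
  have hn0 : 0 < n := Nat.pos_of_ne_zero (NeZero.ne n)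
  have hv0 : 0 < z.val := Nat.pos_of_ne_zero (by rwa [Ne, ZMod.val_eq_zero])
  have hvn : z.val < n := ZMod.val_lt z
  obtain ⟨e, he⟩ := Nat.gcd_dvd_left z.val n
  obtain ⟨d, hd⟩ := Nat.gcd_dvd_right z.val n
  set g := Nat.gcd z.val n with hg
  have hg0 : 0 < g := Nat.gcd_pos_of_pos_left _ hv0
  have hd0 : 0 < d := by
    rcases Nat.eq_zero_or_pos d with h | h
    · rw [h, mul_zero] at hd
      omega
    · exact h
  have : NeZero d := ⟨hd0.ne'⟩
  have hde : Nat.Coprime e d := by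
    have h1 : g = Nat.gcd (g * e) (g * d) := by
      rw [← he, ← hd]
    rw [Nat.gcd_mul_left] at h1
    have h2 : g * 1 = g * Nat.gcd e d := by rw [mul_one]; exact h1
    exact (Nat.eq_of_mul_eq_mul_left hg0 h2).symm
  have hd2 : 2 ≤ d := by
    by_contra h
    have h1 : d = 1 := by omega
    rw [h1, mul_one] at hd
    have h2 : 0 < e := by
      rcases Nat.eq_zero_or_pos e with h3 | h3
      · rw [h3, mul_zero] at he
        omega
      · exact h3
    have h3 : g * 1 ≤ g * e := Nat.mul_le_mul_left g h2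
    omega
  have hS := S_eq hg0 hd he hde
  have hc : (0 : ℚ) < Fintype.card (ZMod d)ˣ := by
    exact_mod_cast Fintype.card_pos
  have hc' : (0 : ℚ) < Fintype.card (ZMod n)ˣ := by
    exact_mod_cast Fintype.card_pos
  have hcd := card_units_eq (n := d)
  constructor
  · by_cases h6 : d ∣ 6
    · have h1 := sum_le_of_dvd_six hd2 h6
      rw [← hcd] at h1
      by_contra hcon
      push Not at hcon
      have h2 : (Fintype.card (ZMod d)ˣ : ℚ) * S z <
          Fintype.card (ZMod d)ˣ * (Fintype.card (ZMod n)ˣ * (1 / 6)) :=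
        mul_lt_mul_of_pos_left hcon hc
      rw [hS] at h2
      have h3 := mul_le_mul_of_nonneg_left h1 hc'.le
      linarith
    · obtain ⟨p, D, hp, hpD, hD, hdp⟩ := exists_prime_of_not_dvd hd0 h6
      have h1 := sum_lt_of_prime hp hpD hD
      rw [← hdp, ← hcd] at h1
      by_contra hcon
      push Not at hcon
      have h2 : (Fintype.card (ZMod d)ˣ : ℚ) * S z <
          Fintype.card (ZMod d)ˣ * (Fintype.card (ZMod n)ˣ * (1 / 6)) :=
        mul_lt_mul_of_pos_left hcon hc
      rw [hS] at h2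
      have h3 := mul_le_mul_of_nonneg_left h1.le hc'.le
      linarith
  · intro h6z
    have h6 : ¬ d ∣ 6 := by
      rintro ⟨q, hq⟩
      apply h6z
      have h1 : ((6 * z.val : ℕ) : ZMod n) = 0 := by
        rw [ZMod.natCast_eq_zero_iff]
        refine ⟨q * e, ?_⟩
        rw [hq, he, hd]
        ring
      rw [← h1, Nat.cast_mul, ZMod.natCast_zmod_val]
      rfl
    obtain ⟨p, D, hp, hpD, hD, hdp⟩ := exists_prime_of_not_dvd hd0 h6
    have h1 := sum_lt_of_prime hp hpD hD
    rw [← hdp, ← hcd] at h1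
    by_contra hcon
    push Not at hcon
    have h2 : (Fintype.card (ZMod d)ˣ : ℚ) * S z ≤
        Fintype.card (ZMod d)ˣ * (Fintype.card (ZMod n)ˣ * (1 / 6)) :=
      mul_le_mul_of_nonneg_left hcon hc.le
    rw [hS] at h2
    have h3 := mul_lt_mul_of_pos_left h1 hc'
    linarith

end

end Pool.Agent.U15.DP
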