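import Pool.Agent.U15.DP.Star

set_option autoImplicit false

/-!
# The numerical part for the plane blown up in two points
-/

namespace Pool.Agent.U15.DP

open Finset

section

variable {ι : Type} [Fintype ι] [DecidableEq ι] {n : ℕ} [NeZero n]

/-- the degree of the eigensheaf -/
def L (d : ι → ℕ) (c : ι → ZMod n) (k : ZMod n) : ℚ := ∑ i, (d i : ℚ) * fr (k * c i)

/-- the degree of the branch curve of the character, with the point at infinity -/
def brn (d : ι → ℕ) (c : ι → ZMod n) : ℕ :=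
  ∑ i ∈ univ.filter (fun i => c i ≠ 0), d i + if ∑ i, d i • c i = 0 then 0 else 1

omit [DecidableEq ι] [NeZero n] in
theorem L_neg (d : ι → ℕ) (c : ι → ZMod n) (k : ZMod n) :
    L d (fun i => -(c i)) k = L d c (-k) := by
  unfold L
  apply Finset.sum_congr rfl
  intro i _
  rw [mul_neg, neg_mul]

omit [DecidableEq ι] [NeZero n] in
theorem brn_neg (d : ι → ℕ) (c : ι → ZMod n) : brn d (fun i => -(c i)) = brn d c := by
  unfold brn
  simp only [ne_eq, neg_eq_zero, smul_neg, Finset.sum_neg_distrib]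

theorem fr_add_le (x y : ZMod n) : fr (x + y) ≤ fr x + fr y := by
  rw [fr_add]
  have h0 : 0 ≤ fr x + fr y := add_nonneg (fr_nonneg x) (fr_nonneg y)
  have h1 : (0 : ℚ) ≤ ⌊fr x + fr y⌋ := by exact_mod_cast Int.floor_nonneg.mpr h0
  have h2 := Int.self_sub_floor (fr x + fr y)
  linarith

omit [DecidableEq ι] in
theorem L_add_le (d : ι → ℕ) (c : ι → ZMod n) (k l : ZMod n) :
    L d c (k + l) ≤ L d c k + L d c l := by
  unfold L
  rw [← Finset.sum_add_distrib]
  apply Finset.sum_le_sum
  intro i _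
  rw [← mul_add, add_mul]
  exact mul_le_mul_of_nonneg_left (fr_add_le _ _) (Nat.cast_nonneg _)

omit [DecidableEq ι] in
theorem L_mono {d e : ι → ℕ} (h : ∀ i, d i ≤ e i) (c : ι → ZMod n) (k : ZMod n) :
    L d c k ≤ L e c k := by
  unfold L
  apply Finset.sum_le_sum
  intro i _
  exact mul_le_mul_of_nonneg_right (by exact_mod_cast h i) (fr_nonneg _)

omit [DecidableEq ι] in
theorem L_add_neg (d : ι → ℕ) (c : ι → ZMod n) :
    L d c 1 + L d c (-1) = ((∑ i ∈ univ.filter (fun i => c i ≠ 0), d i : ℕ) : ℚ) := by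
  unfold L
  rw [← Finset.sum_add_distrib, Finset.sum_filter, Nat.cast_sum]
  apply Finset.sum_congr rfl
  intro i _
  by_cases h : c i = 0
  · simp [h, fr_zero]
  · rw [one_mul, neg_mul, one_mul, fr_neg_of_ne h, if_pos h]
    ring

omit [DecidableEq ι] in
theorem L_one_int {d : ι → ℕ} {c : ι → ZMod n} {m : ℕ} (h : L d c 1 = m) :
    ∑ i, d i • c i = 0 := by
  have hn := cast_pos' (n := n)
  have h1 : ((∑ i, d i * (c i).val : ℕ) : ℚ) = ((m * n : ℕ) : ℚ) := by
    rw [Nat.cast_mul, ← h]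
    unfold L
    rw [Finset.sum_mul, Nat.cast_sum]
    apply Finset.sum_congr rfl
    intro i _
    unfold fr
    rw [one_mul]
    push_cast
    field_simp
  have h2 : (∑ i, d i * (c i).val : ℕ) = m * n := by exact_mod_cast h1
  have h3 := congrArg (fun k : ℕ => (k : ZMod n)) h2
  simp only [Nat.cast_sum, Nat.cast_mul, ZMod.natCast_zmod_val, ZMod.natCast_self, mul_zero] at h3
  simpa only [nsmul_eq_mul] using h3

theorem big_neg {d : ι → ℕ} {c : ι → ZMod n} (hb : 4 ≤ brn d c) (h : L d c 1 ≤ 1) :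
    2 < L d c (-1) ∧ (∑ i ∈ univ.filter (fun i => c i ≠ 0), d i = 3 → L d c 1 < 1) := by
  have h1 := L_add_neg d c
  have key : ∑ i ∈ univ.filter (fun i => c i ≠ 0), d i = 3 → L d c 1 < 1 := by
    intro h3
    refine lt_of_le_of_ne h ?_
    intro h4
    have h5 := L_one_int (m := 1) (by rw [h4]; norm_num)
    unfold brn at hb
    rw [if_pos h5, h3] at hb
    omega
  refine ⟨?_, key⟩
  have h3 : 3 ≤ ∑ i ∈ univ.filter (fun i => c i ≠ 0), d i := by
    unfold brn at hb
    split_ifs at hb <;> omega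
  rcases Nat.lt_or_ge 3 (∑ i ∈ univ.filter (fun i => c i ≠ 0), d i) with h4 | h4
  · have h5 : (4 : ℚ) ≤ ((∑ i ∈ univ.filter (fun i => c i ≠ 0), d i : ℕ) : ℚ) := by
      exact_mod_cast h4
    linarith
  · have h5 : ∑ i ∈ univ.filter (fun i => c i ≠ 0), d i = 3 := by omega
    have h6 := key h5
    rw [h5] at h1
    push_cast at h1
    linarith

/-- remove one index -/
theorem exists_remove {s : Finset ι} {w : ι → ℕ} (h : 1 ≤ ∑ i ∈ s, w i) :
    ∃ v ∈ s, ∃ w' : ι → ℕ, (∀ i, w i = w' i + if i = v then 1 else 0) ∧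
      ∑ i ∈ s, w i = ∑ i ∈ s, w' i + 1 ∧
      ∀ g : ι → ℚ, ∑ i ∈ s, (w i : ℚ) * g i = ∑ i ∈ s, (w' i : ℚ) * g i + g v := by
  obtain ⟨v, hv, hv0⟩ := Finset.exists_ne_zero_of_sum_ne_zero (s := s) (f := w) (by omega)
  have h0 : ∀ i, w i = (w i - if i = v then 1 else 0) + if i = v then 1 else 0 := by
    intro i
    by_cases hi : i = v
    · subst hi
      simp only [if_true]
      omega
    · simp [hi]
  refine ⟨v, hv, fun i => w i - if i = v then 1 else 0, h0, ?_, ?_⟩
  · have h1 : ∑ i ∈ s, w i = ∑ i ∈ s, ((w i - if i = v then 1 else 0) + if i = v then 1 else 0) :=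
      Finset.sum_congr rfl fun i _ => h0 i
    rw [h1, Finset.sum_add_distrib, Finset.sum_ite_eq' s v (fun _ => 1), if_pos hv]
  · intro g
    have h1 : g v = ∑ i ∈ s, if i = v then g i else 0 := by
      rw [Finset.sum_ite_eq' s v g, if_pos hv]
    rw [h1, ← Finset.sum_add_distrib]
    apply Finset.sum_congr rfl
    intro i _
    have h2 : (w i : ℚ) = ((w i - if i = v then 1 else 0 : ℕ) : ℚ) + if i = v then 1 else 0 := by
      exact_mod_cast h0 i
    rw [h2, add_mul]
    by_cases hi : i = v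
    · simp [hi]
    · simp [hi]

theorem exists_pair {s : Finset ι} {w : ι → ℕ} {r : ι → ℚ} {σ : ℚ} (h2 : 2 ≤ ∑ i ∈ s, w i)
    (hr : ∀ i ∈ s, 0 < r i) (hle : ∑ i ∈ s, (w i : ℚ) * r i ≤ σ)
    (hlt : ∑ i ∈ s, w i = 2 → ∑ i ∈ s, (w i : ℚ) * r i < σ) :
    ∃ v₁ ∈ s, ∃ v₂ ∈ s, r v₁ + r v₂ < σ ∧
      ∀ g : ι → ℚ, (∀ i, 0 ≤ g i) → g v₁ + g v₂ ≤ ∑ i ∈ s, (w i : ℚ) * g i := by
  obtain ⟨v₁, hv₁, w₁, hw₁, hs₁, hg₁⟩ := exists_remove (s := s) (w := w) (by omega)
  obtain ⟨v₂, hv₂, w₂, hw₂, hs₂, hg₂⟩ := exists_remove (s := s) (w := w₁) (by omega)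
  have hpos : ∀ g : ι → ℚ, (∀ i ∈ s, 0 ≤ g i) → 0 ≤ ∑ i ∈ s, (w₂ i : ℚ) * g i := by
    intro g hg
    exact Finset.sum_nonneg fun i hi => mul_nonneg (Nat.cast_nonneg _) (hg i hi)
  refine ⟨v₁, hv₁, v₂, hv₂, ?_, ?_⟩
  · by_cases h3 : ∑ i ∈ s, w i = 2
    · have h4 := hlt h3
      rw [hg₁, hg₂] at h4
      have := hpos r (fun i hi => (hr i hi).le)
      linarith
    · obtain ⟨v₃, hv₃, w₃, hw₃, hs₃, hg₃⟩ := exists_remove (s := s) (w := w₂) (by omega)
      rw [hg₁, hg₂, hg₃] at hle
      have h5 : 0 ≤ ∑ i ∈ s, (w₃ i : ℚ) * r i :=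
        Finset.sum_nonneg fun i hi => mul_nonneg (Nat.cast_nonneg _) (hr i hi).le
      have := hr v₃ hv₃
      linarith
  · intro g hg
    rw [hg₁, hg₂]
    have := hpos g (fun i _ => hg i)
    linarith

variable {a b t : ι → ℕ} {c : ι → ZMod n}

omit [DecidableEq ι] in
theorem L_eq_filter [DecidableEq ι] (d : ι → ℕ) (c : ι → ZMod n) (k : ZMod n) :
    L d c k = ∑ i ∈ univ.filter (fun i => c i ≠ 0), (d i : ℚ) * fr (k * c i) := by
  unfold L
  rw [Finset.sum_filter]
  apply Finset.sum_congr rfl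
  intro i _
  by_cases h : c i = 0
  · simp [h, fr_zero]
  · rw [if_pos h]

/-- the case without mixed curves -/
theorem no_mixed (hmix : ∀ i, c i ≠ 0 → a i + b i ≤ t i)
    (H : ∀ k : ZMod n, 1 < L a c k → 1 < L b c k → L t c k ≤ 2)
    (hx : L a c 1 ≤ 1) (hy : L b c (-1) ≤ 1) (hx2 : 2 < L a c (-1)) (hy2 : 2 < L b c 1) : False := by
  have hsum : ∀ k, L a c k + L b c k ≤ L t c k := by
    intro k
    rw [L_eq_filter a, L_eq_filter b, L_eq_filter t, ← Finset.sum_add_distrib]
    apply Finset.sum_le_sum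
    intro i hi
    rw [← add_mul]
    apply mul_le_mul_of_nonneg_right _ (fr_nonneg _)
    exact_mod_cast hmix i (mem_filter.mp hi).2
  have H' : ∀ k, L a c k ≤ 1 ∨ L b c k ≤ 1 := by
    intro k
    by_contra hcon
    push Not at hcon
    have := H k hcon.1 hcon.2
    have := hsum k
    linarith [hcon.1, hcon.2]
  have hP : ∀ k : ℕ, L a c ((k : ZMod n) + 1) ≤ 1 ∧ L b c (-((k : ZMod n) + 1)) ≤ 1 := by
    intro k
    induction k with
    | zero => simpa using ⟨hx, hy⟩
    | succ k ih =>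
      obtain ⟨ih1, ih2⟩ := ih
      have e1 := L_add_le b c (((k + 1 : ℕ) : ZMod n) + 1) (-((k : ZMod n) + 1))
      have e2 : (((k + 1 : ℕ) : ZMod n) + 1) + -((k : ZMod n) + 1) = 1 := by
        push_cast
        ring
      rw [e2] at e1
      have e3 := L_add_le a c (-(((k + 1 : ℕ) : ZMod n) + 1)) ((k : ZMod n) + 1)
      have e4 : -(((k + 1 : ℕ) : ZMod n) + 1) + ((k : ZMod n) + 1) = -1 := by
        push_cast
        ring
      rw [e4] at e3
      constructor
      · rcases H' (((k + 1 : ℕ) : ZMod n) + 1) with h | h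
        · exact h
        · linarith
      · rcases H' (-(((k + 1 : ℕ) : ZMod n) + 1)) with h | h
        · linarith
        · exact h
  have h3 := (hP (2 * n - 2)).1
  have hn : 0 < n := Nat.pos_of_ne_zero (NeZero.ne n)
  have h4 : ((2 * n - 2 : ℕ) : ZMod n) + 1 = -1 := by
    have h5 : ((2 * n - 2 : ℕ) : ZMod n) + 2 = 0 := by
      have h6 : ((2 * n - 2 + 2 : ℕ) : ZMod n) = 0 := by
        have : 2 * n - 2 + 2 = 2 * n := by omega
        rw [this]
        push_cast
        rw [ZMod.natCast_self, mul_zero]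
      rw [← h6]
      push_cast
      ring
    linear_combination h5
  rw [h4] at h3
  linarith

theorem no_typeI (hat : ∀ i, a i ≤ t i) (hbt : ∀ i, b i ≤ t i)
    (H : ∀ k : ZMod n, 1 < L a c k → 1 < L b c k → L t c k ≤ 2)
    (hA : 4 ≤ brn a c) (hB : 4 ≤ brn b c) (hx : L a c 1 ≤ 1) (hy : L b c (-1) ≤ 1) : False := by
  set s : Finset ι := univ.filter (fun i => c i ≠ 0) with hs
  obtain ⟨hx2, hx3⟩ := big_neg hA hx
  have hB' : 4 ≤ brn b (fun i => -(c i)) := by rw [brn_neg]; exact hB
  obtain ⟨hy2, hy3⟩ := big_neg hB' (by rw [L_neg]; exact hy)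
  rw [L_neg, neg_neg] at hy2
  have hyfil : (univ.filter (fun i => -(c i) ≠ 0)) = s := by
    rw [hs]
    congr 1
    funext i
    simp
  rw [hyfil, L_neg] at hy3
  rw [← hs] at hx3
  have hA3 : 3 ≤ ∑ i ∈ s, a i := by
    unfold brn at hA
    rw [← hs] at hA
    split_ifs at hA <;> omega
  have hB3 : 3 ≤ ∑ i ∈ s, b i := by
    unfold brn at hB
    rw [← hs] at hB
    split_ifs at hB <;> omega
  by_cases hmix : ∀ i, c i ≠ 0 → a i = 0 ∨ b i = 0
  · refine no_mixed (t := t) ?_ H hx hy hx2 hy2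
    intro i hi
    rcases hmix i hi with h | h
    · rw [h, zero_add]; exact hbt i
    · rw [h, add_zero]; exact hat i
  · push Not at hmix
    obtain ⟨i₀, hi₀, ha₀, hb₀⟩ := hmix
    have hi₀s : i₀ ∈ s := by rw [hs, mem_filter]; exact ⟨mem_univ _, hi₀⟩
    -- remove `i₀` once from both weights
    set a' : ι → ℕ := fun i => a i - if i = i₀ then 1 else 0 with ha'
    set b' : ι → ℕ := fun i => b i - if i = i₀ then 1 else 0 with hb'
    have haa : ∀ i, a i = a' i + if i = i₀ then 1 else 0 := by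
      intro i
      by_cases hi : i = i₀
      · subst hi
        simp only [ha', if_true]
        omega
      · simp [ha', hi]
    have hbb : ∀ i, b i = b' i + if i = i₀ then 1 else 0 := by
      intro i
      by_cases hi : i = i₀
      · subst hi
        simp only [hb', if_true]
        omega
      · simp [hb', hi]
    have hga : ∀ g : ι → ℚ, ∑ i ∈ s, (a i : ℚ) * g i = ∑ i ∈ s, (a' i : ℚ) * g i + g i₀ := by
      intro g
      have h1 : g i₀ = ∑ i ∈ s, if i = i₀ then g i else 0 := by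
        rw [Finset.sum_ite_eq' s i₀ g, if_pos hi₀s]
      rw [h1, ← Finset.sum_add_distrib]
      apply Finset.sum_congr rfl
      intro i _
      rw [haa i]
      push_cast
      by_cases hi : i = i₀
      · simp [hi]; ring
      · simp [hi]
    have hgb : ∀ g : ι → ℚ, ∑ i ∈ s, (b i : ℚ) * g i = ∑ i ∈ s, (b' i : ℚ) * g i + g i₀ := by
      intro g
      have h1 : g i₀ = ∑ i ∈ s, if i = i₀ then g i else 0 := by
        rw [Finset.sum_ite_eq' s i₀ g, if_pos hi₀s]
      rw [h1, ← Finset.sum_add_distrib]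
      apply Finset.sum_congr rfl
      intro i _
      rw [hbb i]
      push_cast
      by_cases hi : i = i₀
      · simp [hi]; ring
      · simp [hi]
    have hsa : ∑ i ∈ s, a i = ∑ i ∈ s, a' i + 1 := by
      have := hga (fun _ => 1)
      simp only [mul_one] at this
      exact_mod_cast this
    have hsb : ∑ i ∈ s, b i = ∑ i ∈ s, b' i + 1 := by
      have := hgb (fun _ => 1)
      simp only [mul_one] at this
      exact_mod_cast this
    have hfpos : ∀ i ∈ s, 0 < fr (c i) := fun i hi => fr_pos (mem_filter.mp hi).2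
    have hfpos' : ∀ i ∈ s, 0 < fr (-(c i)) :=
      fun i hi => fr_pos (neg_ne_zero.mpr (mem_filter.mp hi).2)
    have hfneg : ∀ i ∈ s, fr (-(c i)) = 1 - fr (c i) :=
      fun i hi => fr_neg_of_ne (mem_filter.mp hi).2
    have hx' : ∑ i ∈ s, (a' i : ℚ) * fr (c i) + fr (c i₀) = L a c 1 := by
      rw [← hga (fun i => fr (c i)), L_eq_filter]
      simp only [one_mul]
      rfl
    have hy' : ∑ i ∈ s, (b' i : ℚ) * fr (-(c i)) + fr (-(c i₀)) = L b c (-1) := by
      rw [← hgb (fun i => fr (-(c i))), L_eq_filter]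
      simp only [neg_mul, one_mul]
      rfl
    have hf₀ := hfneg i₀ hi₀s
    -- at most one of the new weights is positive
    have hex : ∀ i ∈ s, a' i = 0 ∨ b' i = 0 := by
      intro j hj
      by_contra hcon
      push Not at hcon
      obtain ⟨hj1, hj2⟩ := hcon
      have hj1' : (1 : ℚ) ≤ a' j := by exact_mod_cast Nat.one_le_iff_ne_zero.mpr hj1
      have hj2' : (1 : ℚ) ≤ b' j := by exact_mod_cast Nat.one_le_iff_ne_zero.mpr hj2
      have htot : ∑ i ∈ s, ((a' i : ℚ) * fr (c i) + (b' i : ℚ) * fr (-(c i))) ≤ 1 := by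
        rw [Finset.sum_add_distrib]
        linarith
      rw [← Finset.add_sum_erase s _ hj] at htot
      have hrest : 0 ≤ ∑ i ∈ s.erase j, ((a' i : ℚ) * fr (c i) + (b' i : ℚ) * fr (-(c i))) := by
        apply Finset.sum_nonneg
        intro i _
        exact add_nonneg (mul_nonneg (Nat.cast_nonneg _) (fr_nonneg _))
          (mul_nonneg (Nat.cast_nonneg _) (fr_nonneg _))
      have hfj := hfneg j hj
      have hpj := hfpos j hj
      have hpj' := hfpos' j hj
      have haj : (a' j : ℚ) = 1 := by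
        by_contra hne
        have h1 : (2 : ℚ) ≤ a' j := by
          have h2 : a' j ≠ 1 := by
            intro h
            apply hne
            rw [h]; norm_num
          have : 2 ≤ a' j := by omega
          exact_mod_cast this
        nlinarith
      have hrest0 : ∑ i ∈ s.erase j, (a' i : ℚ) * fr (c i) ≤ 0 := by
        rw [Finset.sum_add_distrib] at htot
        have h1 : 0 ≤ ∑ i ∈ s.erase j, (b' i : ℚ) * fr (-(c i)) :=
          Finset.sum_nonneg fun i _ => mul_nonneg (Nat.cast_nonneg _) (fr_nonneg _)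
        nlinarith
      have hz : ∑ i ∈ s.erase j, a' i = 0 := by
        rw [Finset.sum_eq_zero_iff]
        intro i hi
        by_contra hne
        have hi1 : (1 : ℚ) ≤ a' i := by exact_mod_cast Nat.one_le_iff_ne_zero.mpr hne
        have hpi := hfpos i (Finset.mem_of_mem_erase hi)
        have h1 := Finset.single_le_sum (f := fun i => (a' i : ℚ) * fr (c i))
          (fun i _ => mul_nonneg (Nat.cast_nonneg _) (fr_nonneg _)) hi
        nlinarith
      have h2 := Finset.add_sum_erase s a' hj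
      have h3 : a' j = 1 := by exact_mod_cast haj
      omega
    have ht : ∀ g : ι → ℚ, (∀ i, 0 ≤ g i) →
        ∑ i ∈ s, (a' i : ℚ) * g i + ∑ i ∈ s, (b' i : ℚ) * g i + g i₀ ≤
          ∑ i ∈ s, (t i : ℚ) * g i := by
      intro g hg
      have h1 : g i₀ = ∑ i ∈ s, if i = i₀ then g i else 0 := by
        rw [Finset.sum_ite_eq' s i₀ g, if_pos hi₀s]
      rw [h1, ← Finset.sum_add_distrib, ← Finset.sum_add_distrib]
      apply Finset.sum_le_sum
      intro i hi
      have h2 : a' i + b' i + (if i = i₀ then 1 else 0) ≤ t i := by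
        have h3 := hat i
        have h4 := hbt i
        have h5 := haa i
        have h6 := hbb i
        rcases hex i hi with h | h <;> omega
      have h3 : ((a' i : ℚ) + b' i + (if i = i₀ then 1 else 0)) ≤ t i := by exact_mod_cast h2
      have h4 := mul_le_mul_of_nonneg_right h3 (hg i)
      refine le_trans (le_of_eq ?_) h4
      by_cases hi : i = i₀
      · simp [hi]; ring
      · simp [hi]; ring
    obtain ⟨v₁, hv₁, v₂, hv₂, hvlt, hvg⟩ := exists_pair (s := s) (w := a') (r := fun i => fr (c i))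
      (σ := 1 - fr (c i₀)) (by omega) hfpos (by linarith) (by
        intro h
        have := hx3 (by omega)
        linarith)
    obtain ⟨h₁, hh₁, h₂, hh₂, hhlt, hhg⟩ := exists_pair (s := s) (w := b')
      (r := fun i => fr (-(c i))) (σ := 1 - fr (-(c i₀))) (by omega) hfpos' (by linarith) (by
        intro h
        have := hy3 (by omega)
        linarith)
    obtain ⟨m, hm1, hm2, hm3⟩ := star (c := c i₀) (v₁ := c v₁) (v₂ := c v₂) (h₁ := c h₁)
      (h₂ := c h₂) hi₀ (mem_filter.mp hv₁).2 (mem_filter.mp hv₂).2 (mem_filter.mp hh₁).2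
      (mem_filter.mp hh₂).2 (by linarith) (by linarith)
    have g0 : ∀ i, 0 ≤ fr (m * c i) := fun i => fr_nonneg _
    have k1 := hvg (fun i => fr (m * c i)) g0
    have k2 := hhg (fun i => fr (m * c i)) g0
    have k3 := hga (fun i => fr (m * c i))
    have k4 := hgb (fun i => fr (m * c i))
    have k5 := ht (fun i => fr (m * c i)) g0
    have l1 := L_eq_filter a c m
    have l2 := L_eq_filter b c m
    have l3 := L_eq_filter t c m
    rw [← hs] at l1 l2 l3
    have := H m (by linarith) (by linarith)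
    linarith

/-- **the numerical theorem** -/
theorem numeric (hat : ∀ i, a i ≤ t i) (hbt : ∀ i, b i ≤ t i)
    (H : ∀ k : ZMod n, 1 < L a c k → 1 < L b c k → L t c k ≤ 2) :
    brn a c ≤ 3 ∨ brn b c ≤ 3 ∨ ∀ k, L t c k ≤ 2 := by
  by_contra hcon
  push Not at hcon
  obtain ⟨hA, hB, k, hk⟩ := hcon
  have hA4 : 4 ≤ brn a c := hA
  have hB4 : 4 ≤ brn b c := hB
  have hAn : 4 ≤ brn a (fun i => -(c i)) := by rw [brn_neg]; exact hA4
  have hBn : 4 ≤ brn b (fun i => -(c i)) := by rw [brn_neg]; exact hB4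
  have Hn : ∀ k : ZMod n, 1 < L a (fun i => -(c i)) k → 1 < L b (fun i => -(c i)) k →
      L t (fun i => -(c i)) k ≤ 2 := by
    intro k
    rw [L_neg, L_neg, L_neg]
    exact H (-k)
  have hsw : ∀ k : ZMod n, 1 < L b c k → 1 < L a c k → L t c k ≤ 2 := fun k h1 h2 => H k h2 h1
  have hswn : ∀ k : ZMod n, 1 < L b (fun i => -(c i)) k → 1 < L a (fun i => -(c i)) k →
      L t (fun i => -(c i)) k ≤ 2 := fun k h1 h2 => Hn k h2 h1
  have x1 : 1 < L a c 1 := by
    by_contra h
    push Not at h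
    have h1 := (big_neg hA4 h).1
    have h2 := L_mono hat c (-1)
    have h3 : L b c (-1) ≤ 1 := by
      by_contra h3
      push Not at h3
      have := H (-1) (by linarith) h3
      linarith
    exact no_typeI hat hbt H hA4 hB4 h h3
  have y1 : 1 < L b c 1 := by
    by_contra h
    push Not at h
    have h1 := (big_neg hB4 h).1
    have h2 := L_mono hbt c (-1)
    have h3 : L a c (-1) ≤ 1 := by
      by_contra h3
      push Not at h3
      have := H (-1) h3 (by linarith)
      linarith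
    exact no_typeI hbt hat hsw hB4 hA4 h h3
  have x2 : 1 < L a c (-1) := by
    by_contra h
    push Not at h
    have h0 : L a (fun i => -(c i)) 1 ≤ 1 := by rw [L_neg]; exact h
    have h1 := (big_neg hAn h0).1
    rw [L_neg, neg_neg] at h1
    have h2 := L_mono hat c 1
    have h3 : L b c 1 ≤ 1 := by
      by_contra h3
      push Not at h3
      have := H 1 (by linarith) h3
      linarith
    linarith
  have y2 : 1 < L b c (-1) := by
    by_contra h
    push Not at h
    have h0 : L b (fun i => -(c i)) 1 ≤ 1 := by rw [L_neg]; exact h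
    have h1 := (big_neg hBn h0).1
    rw [L_neg, neg_neg] at h1
    have h2 := L_mono hbt c 1
    have := H 1 x1 (by linarith)
    linarith
  have w1 := H 1 x1 y1
  have w2 := H (-1) x2 y2
  have ht := L_add_neg t c
  set s : Finset ι := univ.filter (fun i => c i ≠ 0) with hs
  have ht4 : ∑ i ∈ s, t i ≤ 4 := by
    have : ((∑ i ∈ s, t i : ℕ) : ℚ) ≤ 4 := by rw [← ht]; linarith
    exact_mod_cast this
  -- if `d ≤ t` has degree at least three, then `L t` and `L d` are close
  have hclose : ∀ d : ι → ℕ, (∀ i, d i ≤ t i) → 4 ≤ brn d c → L t c k ≤ L d c k + 1 := by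
    intro d hd hd4
    have hd3 : 3 ≤ ∑ i ∈ s, d i := by
      unfold brn at hd4
      rw [← hs] at hd4
      split_ifs at hd4 <;> omega
    rw [L_eq_filter, L_eq_filter, ← hs]
    have h1 : ∑ i ∈ s, (t i : ℚ) * fr (k * c i) ≤
        ∑ i ∈ s, ((d i : ℚ) * fr (k * c i) + ((t i : ℚ) - d i)) := by
      apply Finset.sum_le_sum
      intro i _
      have h2 : (d i : ℚ) ≤ t i := by exact_mod_cast hd i
      have h3 := (fr_lt_one (k * c i)).le
      nlinarith
    rw [Finset.sum_add_distrib, Finset.sum_sub_distrib] at h1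
    have h4 : (∑ i ∈ s, (t i : ℚ)) ≤ 4 := by exact_mod_cast ht4
    have h5 : (3 : ℚ) ≤ ∑ i ∈ s, (d i : ℚ) := by exact_mod_cast hd3
    linarith
  rcases le_or_gt (L a c k) 1 with h | h
  · have := hclose a hat hA4
    linarith
  · rcases le_or_gt (L b c k) 1 with h' | h'
    · have := hclose b hbt hB4
      linarith
    · have := H k h h'
      linarith

end

end Pool.Agent.U15.DP
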