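import Pool.Agent.U15.DP.Avg

set_option autoImplicit false

/-!
# Five residues: the key numerical statement
-/

namespace Pool.Agent.U15.DP

open Finset

section

variable {n : ℕ} [NeZero n]

/-- distance of `z / n` to the next integer -/
def N (z : ZMod n) : ℚ := nd (fr z)

theorem fract_fr (z : ZMod n) : Int.fract (fr z) = fr z :=
  Int.fract_eq_self.mpr ⟨fr_nonneg z, fr_lt_one z⟩

theorem N_le (z : ZMod n) : N z ≤ fr z := by
  unfold N
  exact (nd_le_fract _).trans (fract_fr z).le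

theorem N_neg (z : ZMod n) : N (-z) = N z := by
  unfold N
  rw [fr_neg, nd_fract, nd_neg]

theorem N_le_neg (z : ZMod n) : N z ≤ fr (-z) := by
  rw [← N_neg]
  exact N_le _

theorem fr_neg_triple {a b c : ZMod n} (h0 : 0 < fr a + fr b + fr c) (h1 : fr a + fr b + fr c ≤ 1) :
    fr (-(a + b + c)) = 1 - (fr a + fr b + fr c) := by
  have e : -(a + b + c) = ((-((a.val : ℤ) + b.val + c.val) : ℤ) : ZMod n) := by
    rw [Int.cast_neg, Int.cast_add, Int.cast_add, intCast_val, intCast_val, intCast_val]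
  rw [e, fr_intCast, Int.fract_eq_iff]
  refine ⟨by linarith, by linarith, -1, ?_⟩
  unfold fr
  push_cast
  ring

variable {c v₁ v₂ h₁ h₂ : ZMod n}

/-- the sum of the six distances -/
def T (c v₁ v₂ h₁ h₂ m : ZMod n) : ℚ :=
  N (m * v₁) + N (m * v₂) + N (m * -(c + v₁ + v₂)) + N (m * h₁) + N (m * h₂) + N (m * (c + h₁ + h₂))

theorem T_neg (m : ZMod n) : T c v₁ v₂ h₁ h₂ (-m) = T c v₁ v₂ h₁ h₂ m := by
  unfold T
  simp only [neg_mul, N_neg]

theorem T_le {m : ZMod n} (hc : m * c ≠ 0) (hX : fr (m * c) + fr (m * v₁) + fr (m * v₂) ≤ 1)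
    (hY : fr (-(m * c)) + fr (-(m * h₁)) + fr (-(m * h₂)) ≤ 1) : T c v₁ v₂ h₁ h₂ m ≤ 1 := by
  have a0 := fr_pos hc
  have a0' := fr_pos (neg_ne_zero.mpr hc)
  have a1 := fr_nonneg (m * v₁)
  have a2 := fr_nonneg (m * v₂)
  have a3 := fr_nonneg (-(m * h₁))
  have a4 := fr_nonneg (-(m * h₂))
  have e1 := fr_neg_triple (a := m * c) (b := m * v₁) (c := m * v₂) (by linarith) hX
  have e2 := fr_neg_triple (a := -(m * c)) (b := -(m * h₁)) (c := -(m * h₂)) (by linarith) hY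
  have f1 : m * -(c + v₁ + v₂) = -(m * c + m * v₁ + m * v₂) := by ring
  have f2 : m * (c + h₁ + h₂) = -(-(m * c) + -(m * h₁) + -(m * h₂)) := by ring
  have e3 := fr_neg_of_ne hc
  have b1 := N_le (m * v₁)
  have b2 := N_le (m * v₂)
  have b3 := N_le (m * -(c + v₁ + v₂))
  have b4 := N_le_neg (m * h₁)
  have b5 := N_le_neg (m * h₂)
  have b6 := N_le (m * (c + h₁ + h₂))
  rw [f1, e1] at b3
  rw [f2, e2] at b6
  unfold T
  rw [f1, f2]
  linarith

theorem type_of {m : ZMod n} (hc : m * c ≠ 0) (hv₁ : m * v₁ ≠ 0) (hv₂ : m * v₂ ≠ 0)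
    (hh₁ : m * h₁ ≠ 0) (hh₂ : m * h₂ ≠ 0)
    (H : ∀ m : ZMod n, 1 < fr (m * c) + fr (m * v₁) + fr (m * v₂) →
      1 < fr (m * c) + fr (m * h₁) + fr (m * h₂) →
      fr (m * c) + fr (m * v₁) + fr (m * v₂) + fr (m * h₁) + fr (m * h₂) ≤ 2) :
    T c v₁ v₂ h₁ h₂ m ≤ 1 := by
  have H1 := H m
  have H2 := H (-m)
  simp only [neg_mul] at H2
  have e0 := fr_neg_of_ne hc
  have e1 := fr_neg_of_ne hv₁
  have e2 := fr_neg_of_ne hv₂
  have e3 := fr_neg_of_ne hh₁
  have e4 := fr_neg_of_ne hh₂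
  have a0 := fr_pos hc
  have a1 := fr_pos hv₁
  have a2 := fr_pos hv₂
  have a3 := fr_pos hh₁
  have a4 := fr_pos hh₂
  rw [e0, e1, e2, e3, e4] at H2
  by_cases hX : fr (m * c) + fr (m * v₁) + fr (m * v₂) ≤ 1
  · have hY : 2 ≤ fr (m * c) + fr (m * h₁) + fr (m * h₂) := by
      by_contra hcon
      push Not at hcon
      have := H2 (by linarith) (by linarith)
      linarith
    refine T_le hc hX ?_
    rw [e0, e3, e4]
    linarith
  · push Not at hX
    have hY : fr (m * c) + fr (m * h₁) + fr (m * h₂) ≤ 1 := by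
      by_contra hcon
      push Not at hcon
      have h3 := H1 hX hcon
      by_cases h4 : 2 ≤ fr (m * c) + fr (m * v₁) + fr (m * v₂)
      · linarith
      · by_cases h5 : 2 ≤ fr (m * c) + fr (m * h₁) + fr (m * h₂)
        · linarith
        · push Not at h4 h5
          have := H2 (by linarith) (by linarith)
          linarith
    have hX2 : 2 ≤ fr (m * c) + fr (m * v₁) + fr (m * v₂) := by
      by_contra hcon
      push Not at hcon
      have := H2 (by linarith) (by linarith)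
      linarith
    rw [← T_neg]
    have hc' : -m * c ≠ 0 := by
      rw [neg_mul]
      exact neg_ne_zero.mpr hc
    refine T_le hc' ?_ ?_
    · simp only [neg_mul]
      rw [e0, e1, e2]
      linarith
    · simp only [neg_mul, neg_neg]
      exact hY

theorem fr_ge_sixth {z : ZMod n} (hz : z ≠ 0) (h : 6 * z = 0) : 1 / 6 ≤ fr z := by
  have hn := cast_pos' (n := n)
  have h1 : ((6 * z.val : ℕ) : ZMod n) = 0 := by
    rw [← h, Nat.cast_mul, ZMod.natCast_zmod_val]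
    rfl
  obtain ⟨t, ht⟩ := (ZMod.natCast_eq_zero_iff _ _).mp h1
  have hv0 : 0 < z.val := Nat.pos_of_ne_zero (by rwa [Ne, ZMod.val_eq_zero])
  have ht1 : 1 ≤ t := by
    rcases Nat.eq_zero_or_pos t with h2 | h2
    · rw [h2, mul_zero] at ht
      omega
    · exact h2
  have h3 : n ≤ 6 * z.val := by
    rw [ht]
    exact Nat.le_mul_of_pos_right n ht1
  have h4 : (n : ℚ) ≤ 6 * z.val := by exact_mod_cast h3
  unfold fr
  rw [le_div_iff₀ hn]
  linarith

theorem star (hc : c ≠ 0) (hv₁ : v₁ ≠ 0) (hv₂ : v₂ ≠ 0) (hh₁ : h₁ ≠ 0) (hh₂ : h₂ ≠ 0)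
    (hx : fr c + fr v₁ + fr v₂ < 1) (hy : fr (-c) + fr (-h₁) + fr (-h₂) < 1) :
    ∃ m : ZMod n, 1 < fr (m * c) + fr (m * v₁) + fr (m * v₂) ∧
      1 < fr (m * c) + fr (m * h₁) + fr (m * h₂) ∧
      2 < fr (m * c) + fr (m * v₁) + fr (m * v₂) + fr (m * h₁) + fr (m * h₂) := by
  by_contra hcon
  push Not at hcon
  have a0 := fr_pos hc
  have a0' := fr_pos (neg_ne_zero.mpr hc)
  have a1 := fr_pos hv₁
  have a2 := fr_pos hv₂
  have a3 := fr_pos (neg_ne_zero.mpr hh₁)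
  have a4 := fr_pos (neg_ne_zero.mpr hh₂)
  have e1 := fr_neg_triple (a := c) (b := v₁) (c := v₂) (by linarith) hx.le
  have e2 := fr_neg_triple (a := -c) (b := -h₁) (c := -h₂) (by linarith) hy.le
  have f2 : -(-c + -h₁ + -h₂) = c + h₁ + h₂ := by ring
  rw [f2] at e2
  have z3 : -(c + v₁ + v₂) ≠ 0 := by
    intro h
    rw [h, fr_zero] at e1
    linarith
  have z6 : c + h₁ + h₂ ≠ 0 := by
    intro h
    rw [h, fr_zero] at e2
    linarith
  have hcard : (0 : ℚ) < Fintype.card (ZMod n)ˣ := by exact_mod_cast Fintype.card_pos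
  have hunit : ∀ (u : (ZMod n)ˣ) {z : ZMod n}, z ≠ 0 → (u : ZMod n) * z ≠ 0 := by
    intro u z hz h
    apply hz
    have := congrArg (fun x => ((u⁻¹ : (ZMod n)ˣ) : ZMod n) * x) h
    simpa using this
  have hT : ∀ u : (ZMod n)ˣ, T c v₁ v₂ h₁ h₂ (u : ZMod n) ≤ 1 := fun u =>
    type_of (hunit u hc) (hunit u hv₁) (hunit u hv₂) (hunit u hh₁) (hunit u hh₂) hcon
  have hsum : S v₁ + S v₂ + S (-(c + v₁ + v₂)) + S h₁ + S h₂ + S (c + h₁ + h₂) ≤
      Fintype.card (ZMod n)ˣ := by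
    have h1 : S v₁ + S v₂ + S (-(c + v₁ + v₂)) + S h₁ + S h₂ + S (c + h₁ + h₂) =
        ∑ u : (ZMod n)ˣ, T c v₁ v₂ h₁ h₂ (u : ZMod n) := by
      unfold S T N
      simp only [Finset.sum_add_distrib]
    rw [h1]
    have h2 := Finset.sum_le_sum (fun u (_ : u ∈ (Finset.univ : Finset (ZMod n)ˣ)) => hT u)
    rw [Finset.sum_const, Finset.card_univ, nsmul_eq_mul, mul_one] at h2
    exact h2
  obtain ⟨b1, b1'⟩ := avg_main hv₁
  obtain ⟨b2, b2'⟩ := avg_main hv₂
  obtain ⟨b3, b3'⟩ := avg_main z3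
  obtain ⟨b4, b4'⟩ := avg_main hh₁
  obtain ⟨b5, b5'⟩ := avg_main hh₂
  obtain ⟨b6, b6'⟩ := avg_main z6
  have g1 : 6 * v₁ = 0 := by
    by_contra h
    linarith [b1' h]
  have g2 : 6 * v₂ = 0 := by
    by_contra h
    linarith [b2' h]
  have g3 : 6 * -(c + v₁ + v₂) = 0 := by
    by_contra h
    linarith [b3' h]
  have g4 : 6 * h₁ = 0 := by
    by_contra h
    linarith [b4' h]
  have g5 : 6 * h₂ = 0 := by
    by_contra h
    linarith [b5' h]
  have g6 : 6 * (c + h₁ + h₂) = 0 := by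
    by_contra h
    linarith [b6' h]
  have k1 := fr_ge_sixth hv₁ g1
  have k2 := fr_ge_sixth hv₂ g2
  have k3 := fr_ge_sixth z3 g3
  have k4 := fr_ge_sixth (neg_ne_zero.mpr hh₁) (by rw [mul_neg, g4, neg_zero])
  have k5 := fr_ge_sixth (neg_ne_zero.mpr hh₂) (by rw [mul_neg, g5, neg_zero])
  have k6 := fr_ge_sixth z6 g6
  have e0 := fr_neg_of_ne hc
  have e4 := fr_neg_of_ne hh₁
  have e5 := fr_neg_of_ne hh₂
  have r0 : fr c = 1 / 2 := by linarith
  have r1 : fr v₁ = 1 / 6 := by linarith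
  have r2 : fr v₂ = 1 / 6 := by linarith
  have r4 : fr h₁ = 5 / 6 := by linarith
  have r5 : fr h₂ = 5 / 6 := by linarith
  have s0 : fr (((3 : ℕ) : ZMod n) * c) = 1 / 2 := by
    rw [fr_natMul, r0, Int.fract_eq_iff]
    refine ⟨by norm_num, by norm_num, 1, by norm_num⟩
  have s1 : fr (((3 : ℕ) : ZMod n) * v₁) = 1 / 2 := by
    rw [fr_natMul, r1, Int.fract_eq_iff]
    refine ⟨by norm_num, by norm_num, 0, by norm_num⟩
  have s2 : fr (((3 : ℕ) : ZMod n) * v₂) = 1 / 2 := by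
    rw [fr_natMul, r2, Int.fract_eq_iff]
    refine ⟨by norm_num, by norm_num, 0, by norm_num⟩
  have s4 : fr (((3 : ℕ) : ZMod n) * h₁) = 1 / 2 := by
    rw [fr_natMul, r4, Int.fract_eq_iff]
    refine ⟨by norm_num, by norm_num, 2, by norm_num⟩
  have s5 : fr (((3 : ℕ) : ZMod n) * h₂) = 1 / 2 := by
    rw [fr_natMul, r5, Int.fract_eq_iff]
    refine ⟨by norm_num, by norm_num, 2, by norm_num⟩
  have := hcon ((3 : ℕ) : ZMod n) (by rw [s0, s1, s2]; norm_num) (by rw [s0, s4, s5]; norm_num)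
  rw [s0, s1, s2, s4, s5] at this
  norm_num at this

end

end Pool.Agent.U15.DP
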