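import Mathlib

set_option autoImplicit false

/-!
# The average distance of the reduced fractions with a given denominator to the integers

For every `d ≥ 2` the average of the distances `‖k / d‖`, `k` prime to `d`, is at least `1 / 6`, and it is larger
than `1 / 6` if `d` does not divide `6`.
-/

namespace Pool.Agent.U15.DP

open Finset

/-- distance to the nearest integer -/
def nd (x : ℚ) : ℚ := min (Int.fract x) (1 - Int.fract x)

theorem nd_of_mem {x : ℚ} (h0 : 0 ≤ x) (h1 : x < 1) : nd x = min x (1 - x) := by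
  unfold nd
  rw [Int.fract_eq_self.mpr ⟨h0, h1⟩]

theorem nd_nonneg (x : ℚ) : 0 ≤ nd x := by
  unfold nd
  exact le_min (Int.fract_nonneg x) (by linarith [Int.fract_lt_one x])

theorem nd_le_half (x : ℚ) : nd x ≤ 1 / 2 := by
  unfold nd
  rcases le_total (Int.fract x) (1 / 2) with h | h
  · exact (min_le_left _ _).trans h
  · exact (min_le_right _ _).trans (by linarith)

theorem nd_le_fract (x : ℚ) : nd x ≤ Int.fract x := min_le_left _ _

theorem nd_add_int (x : ℚ) (m : ℤ) : nd (x + m) = nd x := by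
  unfold nd
  rw [Int.fract_add_intCast]

theorem nd_fract (x : ℚ) : nd (Int.fract x) = nd x := by
  unfold nd
  rw [Int.fract_fract]

theorem nd_neg (x : ℚ) : nd (-x) = nd x := by
  unfold nd
  by_cases h : Int.fract x = 0
  · rw [Int.fract_neg_eq_zero.mpr h, h]
  · rw [Int.fract_neg h, min_comm]
    congr 1
    ring

/-- the sum over `x + j / p`, `p = 2 q + 1` -/
theorem sum_nd_odd {q : ℕ} {x : ℚ} (hx0 : 0 ≤ x) (hx : x * (2 * q + 1) < 1) :
    (q : ℚ) * (q + 1) / (2 * q + 1) ≤
      ∑ j ∈ range (2 * q + 1), nd (x + (j : ℚ) / (2 * q + 1)) := by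
  have hp : (0 : ℚ) < 2 * q + 1 := by positivity
  have e : 2 * q + 1 = q + (q + 1) := by ring
  have hr : ∑ j ∈ range (2 * q + 1), nd (x + (j : ℚ) / (2 * q + 1)) =
      ∑ j ∈ range q, nd (x + (j : ℚ) / (2 * q + 1)) +
        ∑ j ∈ range (q + 1), nd (x + ((q + j : ℕ) : ℚ) / (2 * q + 1)) := by
    conv_lhs => rw [e]
    rw [Finset.sum_range_add]
  rw [hr, Finset.sum_range_succ', ← add_assoc, ← Finset.sum_add_distrib]
  have h1 : ∀ j ∈ range q, nd (x + (j : ℚ) / (2 * q + 1)) +
      nd (x + ((q + (j + 1) : ℕ) : ℚ) / (2 * q + 1)) = (q : ℚ) / (2 * q + 1) := by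
    intro j hj
    rw [mem_range] at hj
    have hj' : (j : ℚ) + 1 ≤ q := by exact_mod_cast hj
    have a1 : x + (j : ℚ) / (2 * q + 1) = (x * (2 * q + 1) + j) / (2 * q + 1) := by field_simp
    have a2 : x + ((q + (j + 1) : ℕ) : ℚ) / (2 * q + 1) =
        (x * (2 * q + 1) + (q + j + 1)) / (2 * q + 1) := by
      push_cast
      field_simp
      ring
    have hxp : 0 ≤ x * (2 * q + 1) := by positivity
    have b1 : nd ((x * (2 * q + 1) + j) / (2 * q + 1)) = (x * (2 * q + 1) + j) / (2 * q + 1) := by
      rw [nd_of_mem (by positivity) (by rw [div_lt_one hp]; linarith)]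
      apply min_eq_left
      rw [le_sub_iff_add_le, ← add_div, div_le_one hp]
      linarith
    have b2 : nd ((x * (2 * q + 1) + (q + j + 1)) / (2 * q + 1)) =
        1 - (x * (2 * q + 1) + (q + j + 1)) / (2 * q + 1) := by
      rw [nd_of_mem (by positivity) (by rw [div_lt_one hp]; linarith)]
      apply min_eq_right
      rw [sub_le_iff_le_add, ← add_div, le_div_iff₀ hp]
      linarith
    rw [a1, a2, b1, b2]
    field_simp
    ring
  rw [Finset.sum_congr rfl h1, Finset.sum_const, card_range, nsmul_eq_mul]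
  have h2 : (q : ℚ) / (2 * q + 1) ≤ nd (x + ((q + 0 : ℕ) : ℚ) / (2 * q + 1)) := by
    have a1 : x + ((q + 0 : ℕ) : ℚ) / (2 * q + 1) = (x * (2 * q + 1) + q) / (2 * q + 1) := by
      push_cast
      field_simp
      ring
    have hxp : 0 ≤ x * (2 * q + 1) := by positivity
    have hq0 : (0 : ℚ) ≤ q := Nat.cast_nonneg q
    rcases Nat.eq_zero_or_pos q with h0 | h0
    · subst h0
      simp only [Nat.cast_zero, zero_div]
      exact nd_nonneg _
    have hq1 : (1 : ℚ) ≤ q := by exact_mod_cast h0
    rw [a1, nd_of_mem (by positivity) (by rw [div_lt_one hp]; linarith)]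
    apply le_min
    · rw [div_le_div_iff_of_pos_right hp]
      linarith
    · rw [le_sub_iff_add_le, ← add_div, div_le_one hp]
      linarith
  calc (q : ℚ) * (q + 1) / (2 * q + 1) = (q : ℚ) * (q / (2 * q + 1)) + q / (2 * q + 1) := by
        field_simp
    _ ≤ _ := by linarith

theorem sum_range_mul' (F : ℕ → ℚ) (p D : ℕ) :
    ∑ k ∈ range (p * D), F k = ∑ r ∈ range D, ∑ j ∈ range p, F (r + j * D) := by
  induction p with
  | zero => simp
  | succ p ih =>
    rw [Nat.succ_mul, Finset.sum_range_add, ih, ← Finset.sum_add_distrib]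
    apply Finset.sum_congr rfl
    intro r _
    rw [Finset.sum_range_succ, add_comm (p * D) r]

/-- the contribution of a residue -/
def Fc (d k : ℕ) : ℚ := if Nat.Coprime d k then nd ((k : ℚ) / d) else 0

/-- the indicator function of the reduced residues -/
def Ic (d k : ℕ) : ℚ := if Nat.Coprime d k then 1 else 0

theorem inner_lt {p D r : ℕ} (hp : p.Prime) (hpD : 5 ≤ p ∨ p ∣ D) (hr : r < D)
    (hc : Nat.Coprime D r) :
    1 / 6 * ∑ j ∈ range p, Ic (p * D) (r + j * D) < ∑ j ∈ range p, Fc (p * D) (r + j * D) := by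
  have hD : 0 < D := by omega
  have hD' : (0 : ℚ) < D := by exact_mod_cast hD
  have hp0 : (0 : ℚ) < p := by exact_mod_cast hp.pos
  have hcop : ∀ j, Nat.Coprime (p * D) (r + j * D) ↔ ¬ p ∣ r + j * D := by
    intro j
    rw [Nat.coprime_mul_iff_left]
    have : Nat.Coprime D (r + j * D) := by
      rw [Nat.coprime_add_mul_right_right]
      exact hc
    rw [hp.coprime_iff_not_dvd]
    tauto
  set Bd : Finset ℕ := (range p).filter (fun j => p ∣ r + j * D) with hBd
  have hBd1 : Bd.card ≤ 1 := by
    rw [Finset.card_le_one]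
    intro i hi j hj
    rw [hBd, mem_filter, mem_range] at hi hj
    obtain ⟨hi1, hi2⟩ := hi
    obtain ⟨hj1, hj2⟩ := hj
    have hpnD : ¬ p ∣ D := by
      intro h
      have h1 : p ∣ r := (Nat.dvd_add_left (Dvd.dvd.mul_left h i)).mp hi2
      have h2 := Nat.dvd_gcd h h1
      rw [hc] at h2
      exact hp.one_lt.ne' (Nat.dvd_one.mp h2)
    have key : ∀ i j : ℕ, j < p → p ∣ r + i * D → p ∣ r + j * D → i ≤ j → j ≤ i := by
      intro i j hj1 hi2 hj2 hij
      have h3 : p ∣ (r + j * D) - (r + i * D) := Nat.dvd_sub hj2 hi2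
      have h4 : (r + j * D) - (r + i * D) = (j - i) * D := by
        rw [Nat.sub_mul]
        omega
      rw [h4] at h3
      have h5 : p ∣ j - i := (hp.dvd_mul.mp h3).resolve_right hpnD
      have h6 := Nat.eq_zero_of_dvd_of_lt h5 (by omega)
      omega
    rcases le_total i j with h | h
    · exact le_antisymm h (key i j hj1 hi2 hj2 h)
    · exact le_antisymm (key j i hi1 hj2 hi2 h) h
  have hBd0 : p ∣ D → Bd.card = 0 := by
    intro h
    rw [Finset.card_eq_zero, hBd, Finset.filter_eq_empty_iff]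
    intro j _ hj
    have h1 : p ∣ r := (Nat.dvd_add_left (Dvd.dvd.mul_left h j)).mp hj
    have h2 := Nat.dvd_gcd h h1
    rw [hc] at h2
    exact hp.one_lt.ne' (Nat.dvd_one.mp h2)
  have hcardq : (Bd.card : ℚ) ≤ 1 := by exact_mod_cast hBd1
  -- the sum of the indicator function
  have hI : ∑ j ∈ range p, Ic (p * D) (r + j * D) = p - Bd.card := by
    have h1 : ∀ j ∈ range p, Ic (p * D) (r + j * D) = 1 - if p ∣ r + j * D then 1 else 0 := by
      intro j _
      unfold Ic
      by_cases h : p ∣ r + j * D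
      · have h' : ¬ Nat.Coprime (p * D) (r + j * D) := fun hh => (hcop j).mp hh h
        rw [if_neg h', if_pos h]; norm_num
      · rw [if_pos ((hcop j).mpr h), if_neg h]; norm_num
    rw [Finset.sum_congr rfl h1, Finset.sum_sub_distrib, Finset.sum_const, card_range,
      ← Finset.sum_filter, Finset.sum_const, ← hBd]
    simp
  -- the sum of the distances
  have hF : ∑ j ∈ range p, nd ((r : ℚ) / (p * D) + j / p) - Bd.card / 2 ≤
      ∑ j ∈ range p, Fc (p * D) (r + j * D) := by
    have h1 : ∀ j ∈ range p, nd ((r : ℚ) / (p * D) + j / p) -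
        (if p ∣ r + j * D then (1 / 2 : ℚ) else 0) ≤ Fc (p * D) (r + j * D) := by
      intro j _
      unfold Fc
      have e : (((r + j * D : ℕ) : ℚ) / ((p * D : ℕ) : ℚ)) = (r : ℚ) / (p * D) + j / p := by
        push_cast
        field_simp
      by_cases h : p ∣ r + j * D
      · have h' : ¬ Nat.Coprime (p * D) (r + j * D) := fun hh => (hcop j).mp hh h
        rw [if_neg h', if_pos h]
        linarith [nd_le_half ((r : ℚ) / (p * D) + j / p)]
      · rw [if_pos ((hcop j).mpr h), if_neg h, e]
        linarith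
    have h2 := Finset.sum_le_sum h1
    rw [Finset.sum_sub_distrib, ← Finset.sum_filter, Finset.sum_const, ← hBd] at h2
    rw [nsmul_eq_mul] at h2
    linarith
  have hx0 : (0 : ℚ) ≤ (r : ℚ) / (p * D) := by positivity
  have hx1 : (r : ℚ) / (p * D) * p < 1 := by
    have : (r : ℚ) / (p * D) * p = r / D := by field_simp
    rw [this, div_lt_one hD']
    exact_mod_cast hr
  rw [hI]
  rcases hp.eq_two_or_odd' with h2 | h2
  · subst h2
    have hpD' : 2 ∣ D := by
      rcases hpD with h | h
      · omega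
      · exact h
    have h0 := hBd0 hpD'
    rw [h0] at hF ⊢
    push_cast at hF hx0 hx1 ⊢
    rw [Finset.sum_range_succ, Finset.sum_range_succ, Finset.sum_range_zero] at hF
    set x := (r : ℚ) / (2 * D) with hx
    have e1 : nd (x + ((0 : ℕ) : ℚ) / 2) = x := by
      rw [Nat.cast_zero, zero_div, add_zero, nd_of_mem hx0 (by linarith)]
      exact min_eq_left (by linarith)
    have e2 : nd (x + ((1 : ℕ) : ℚ) / 2) = 1 / 2 - x := by
      rw [Nat.cast_one, nd_of_mem (by linarith) (by linarith), min_eq_right (by linarith)]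
      ring
    rw [e1, e2] at hF
    linarith
  · obtain ⟨q, hq⟩ := h2
    have hpq : (p : ℚ) = 2 * q + 1 := by rw [hq]; push_cast; ring
    have hS := sum_nd_odd (q := q) hx0 (by rw [← hpq]; exact hx1)
    rw [← hq, ← hpq] at hS
    have hq1 : (1 : ℚ) ≤ q := by
      have : 1 ≤ q := by
        have := hp.two_le
        omega
      exact_mod_cast this
    have hC : (q : ℚ) * (q + 1) / p = (q : ℚ) * (q + 1) / (2 * q + 1) := by rw [hpq]
    rcases Nat.eq_zero_or_pos Bd.card with h0 | h0
    · rw [h0] at hF ⊢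
      have h3 : (1 : ℚ) / 6 * p < (q : ℚ) * (q + 1) / p := by
        rw [lt_div_iff₀ hp0, hpq]
        nlinarith
      push_cast at hF ⊢
      linarith
    · have h1 : Bd.card = 1 := by omega
      have hp5 : 5 ≤ p := by
        rcases hpD with h | h
        · exact h
        · rw [hBd0 h] at h0
          omega
      have hq2 : (2 : ℚ) ≤ q := by
        have : 2 ≤ q := by omega
        exact_mod_cast this
      rw [h1] at hF ⊢
      have h3 : (1 : ℚ) / 6 * (p - 1) + 1 / 2 < (q : ℚ) * (q + 1) / p := by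
        rw [lt_div_iff₀ hp0, hpq]
        nlinarith
      push_cast at hF ⊢
      linarith

theorem inner_zero {p D r : ℕ} (hc : ¬ Nat.Coprime D r) (j : ℕ) :
    ¬ Nat.Coprime (p * D) (r + j * D) := by
  intro h
  apply hc
  have := Nat.Coprime.coprime_mul_left h
  rwa [Nat.coprime_add_mul_right_right] at this

theorem sum_lt_of_prime {p D : ℕ} (hp : p.Prime) (hpD : 5 ≤ p ∨ p ∣ D) (hD : 0 < D) :
    1 / 6 * ∑ k ∈ range (p * D), Ic (p * D) k < ∑ k ∈ range (p * D), Fc (p * D) k := by
  rw [sum_range_mul', sum_range_mul', Finset.mul_sum]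
  apply Finset.sum_lt_sum
  · intro r hr
    rw [mem_range] at hr
    by_cases hc : Nat.Coprime D r
    · exact (inner_lt hp hpD hr hc).le
    · rw [Finset.sum_eq_zero, Finset.sum_eq_zero]
      · simp
      · intro j _
        exact if_neg (inner_zero hc j)
      · intro j _
        exact if_neg (inner_zero hc j)
  · rcases Nat.lt_or_ge 1 D with h | h
    · exact ⟨1, mem_range.mpr h, inner_lt hp hpD h (Nat.coprime_one_right D)⟩
    · have h1 : D = 1 := by omega
      subst h1
      exact ⟨0, mem_range.mpr one_pos, inner_lt hp hpD one_pos (Nat.coprime_one_left 0)⟩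

theorem exists_prime_of_not_dvd {d : ℕ} (hd : 0 < d) (h : ¬ d ∣ 6) :
    ∃ p D, p.Prime ∧ (5 ≤ p ∨ p ∣ D) ∧ 0 < D ∧ d = p * D := by
  by_contra hcon
  push Not at hcon
  have hsq : Squarefree d := by
    rw [Nat.squarefree_iff_prime_squarefree]
    rintro p hp ⟨e, he⟩
    have he0 : 0 < e := by
      rcases Nat.eq_zero_or_pos e with h0 | h0
      · rw [h0] at he; omega
      · exact h0
    exact hcon p (p * e) hp (Or.inr (Dvd.intro e rfl)) (Nat.mul_pos hp.pos he0)
      (by rw [he, mul_assoc])
  have hpr : d.primeFactors ⊆ ({2, 3} : Finset ℕ) := by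
    intro p hp
    have hpp := Nat.prime_of_mem_primeFactors hp
    have hpd := Nat.dvd_of_mem_primeFactors hp
    obtain ⟨D, hD⟩ := hpd
    have hD0 : 0 < D := by
      rcases Nat.eq_zero_or_pos D with h0 | h0
      · rw [h0] at hD; omega
      · exact h0
    have h5 : p < 5 := by
      by_contra h5
      exact hcon p D hpp (Or.inl (by omega)) hD0 hD
    have := hpp.two_le
    interval_cases p
    · simp
    · simp
    · exact absurd hpp (by norm_num)
  apply h
  rw [← Nat.prod_primeFactors_of_squarefree hsq]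
  have := Finset.prod_dvd_prod_of_subset _ _ (fun p : ℕ => p) hpr
  simpa using this

theorem sum_le_of_dvd_six {d : ℕ} (hd : 2 ≤ d) (h : d ∣ 6) :
    1 / 6 * ∑ k ∈ range d, Ic d k ≤ ∑ k ∈ range d, Fc d k := by
  have hd6 : d ≤ 6 := Nat.le_of_dvd (by norm_num) h
  have e : ∀ k : ℕ, k < d → (k : ℚ) / d < 1 := by
    intro k hk
    rw [div_lt_one (by positivity)]
    exact_mod_cast hk
  have g : ∀ k : ℕ, k < d → nd ((k : ℚ) / d) = min ((k : ℚ) / d) (1 - (k : ℚ) / d) :=
    fun k hk => nd_of_mem (by positivity) (e k hk)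
  have hF : ∑ k ∈ range d, Fc d k =
      ∑ k ∈ range d, if Nat.Coprime d k then min ((k : ℚ) / d) (1 - (k : ℚ) / d) else 0 := by
    apply Finset.sum_congr rfl
    intro k hk
    unfold Fc
    rw [g k (mem_range.mp hk)]
  rw [hF]
  unfold Ic
  interval_cases d
  · simp only [Finset.sum_range_succ, Finset.sum_range_zero, Nat.Coprime]
    norm_num
  · simp only [Finset.sum_range_succ, Finset.sum_range_zero, Nat.Coprime]
    norm_num
  · omega
  · omega
  · simp only [Finset.sum_range_succ, Finset.sum_range_zero, Nat.Coprime]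
    norm_num

end Pool.Agent.U15.DP
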